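import Pool.Agent.Run7.h148.AX.AllC

/-!
# Axisymmetric data (with swirl) with global smooth solutions: an open and dense set

The Navier-Stokes equations in the whole space `ℝ³`, without force, viscosity `ν > 0`. Let `u0` be
ANY axisymmetric weakly divergence free field in `L¹_loc`, swirl allowed, and `V` any global smooth
axisymmetric flow with `∫ |V̂(t, ξ)| dξ ≤ H(t)`, `H` bounded and square integrable in time, for example
`V = 0`. In every neighbourhood of `u0` for the topology of distributions there is a datum `v0` with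
a whole ball in the critical Lei-Lin norm `∫ |ŵ(ξ)| / |ξ| dξ` around it, such that all axisymmetric
data in the ball have global smooth axisymmetric solutions, and all these solutions are `ε`-close to
the flow `V` in the critical norm at all times `t ≥ ε`.

Construction: `v0` is `V(0)` plus a mean field `(1/(4ν)) P div (A ⊗ A)` plus the wave
`N A(x) cos(N z) + ...` along the axis, `A` horizontal, axisymmetric, smooth and compactly supported.
The wave lives for the time `1/(νN²)` only, and its quadratic self-interaction removes the mean field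
in this time. The cone generated by the mean fields is weakly dense in the axisymmetric divergence
free fields (a separation argument, and an argument on the rays orthogonal to the axis).
-/

set_option autoImplicit false

open MeasureTheory Set Filter Topology
open scoped ENNReal ContDiff FourierTransform

namespace Pool.Agent.Results.MP_09540e_an.AxisymmetricDensity

/-! ### Fields and solutions in the physical space -/

/-- the space `ℝ³`; the axis of the rotations is the axis of `x 2` -/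
abbrev E3 := EuclideanSpace ℝ (Fin 3)

/-- the rotation by the angle `θ` about the axis -/
noncomputable def rt (θ : ℝ) (x : E3) : E3 :=
  !₂[Real.cos θ * x 0 - Real.sin θ * x 1, Real.sin θ * x 0 + Real.cos θ * x 1, x 2]

/-- axisymmetric vector field, swirl allowed -/
def Axi (u : E3 → E3) : Prop := ∀ θ x, u (rt θ x) = rt θ (u x)

/-- partial derivative -/
noncomputable def pd (j : Fin 3) (f : E3 → ℝ) (x : E3) : ℝ :=
  fderiv ℝ f x (EuclideanSpace.single j 1)

/-- the class `C_c^∞` of functions -/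
def TestFunction (q : E3 → ℝ) : Prop := ContDiff ℝ ∞ q ∧ HasCompactSupport q

/-- the class `C_c^∞` of vector fields -/
def TestField (φ : E3 → E3) : Prop := ContDiff ℝ ∞ φ ∧ HasCompactSupport φ

/-- weakly divergence free -/
def WDf (u : E3 → E3) : Prop := ∀ q : E3 → ℝ, TestFunction q → ∫ x, ∑ j, u x j * pd j q x = 0

/-- Global smooth axisymmetric solution of the Navier-Stokes equations with viscosity `ν` in the
whole space: `u t` and `p t` are smooth, all derivatives of `u t` are bounded and square integrable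
locally uniformly in time, and the equations hold for all `t ≥ 0` (at `t = 0` with the one-sided
derivative). -/
structure IsSol (ν : ℝ) (u : ℝ → E3 → E3) (p : ℝ → E3 → ℝ) : Prop where
  smooth : ∀ t, 0 ≤ t → ContDiff ℝ ∞ (u t) ∧ ContDiff ℝ ∞ (p t)
  axi : ∀ t, 0 ≤ t → Axi (u t)
  div : ∀ t, 0 ≤ t → ∀ x, ∑ j, pd j (fun y => u t y j) x = 0
  eqn : ∀ t, 0 ≤ t → ∀ x k, HasDerivWithinAt (fun s => u s x k)
    (ν * (∑ j, pd j (pd j fun y => u t y k) x) - (∑ j, u t x j * pd j (fun y => u t y k) x)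
      - pd k (p t) x) (Ici 0) t
  bdd : ∀ (n : ℕ) (T : ℝ), ∃ M : ℝ, ∀ t ∈ Icc 0 T, ∀ x, ‖iteratedFDeriv ℝ n (u t) x‖ ≤ M
  sqi : ∀ (n : ℕ) (T : ℝ), ∃ M : NNReal, ∀ t ∈ Icc 0 T,
    ∫⁻ x, ‖iteratedFDeriv ℝ n (u t) x‖ₑ ^ 2 ≤ M

/-! ### Fourier transforms of vector fields -/

/-- vectors with three complex components -/
abbrev C3 := Fin 3 → ℂ

/-- Fourier transform of a real vector field, `∫ e^{-2πi x·ξ} A(x) dx` -/
noncomputable def fth (A : E3 → E3) (ξ : E3) : C3 := fun k => 𝓕 (fun x => ((A x k : ℝ) : ℂ)) ξ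

/-- the real vector field with the Fourier transform `a` -/
noncomputable def phy (a : E3 → C3) (x : E3) : E3 :=
  WithLp.toLp 2 fun k => (𝓕⁻ (fun ξ => a ξ k) x).re

/-- `ξ · v` -/
noncomputable def dt (ξ : E3) (v : C3) : ℂ := ∑ j, (ξ j : ℂ) * v j

/-- the rotation of complex vectors -/
noncomputable def rc (θ : ℝ) (v : C3) : C3 :=
  ![(Real.cos θ : ℂ) * v 0 - (Real.sin θ : ℂ) * v 1,
    (Real.sin θ : ℂ) * v 0 + (Real.cos θ : ℂ) * v 1, v 2]

/-- `a` is the Fourier transform of a real, axisymmetric, divergence free vector field -/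
def Sym (a : E3 → C3) : Prop := (∀ ξ k, a (-ξ) k = (starRingEnd ℂ) (a ξ k)) ∧
  (∀ θ ξ, a (rt θ ξ) = rc θ (a ξ)) ∧ ∀ ξ, dt ξ (a ξ) = 0

/-- the weight `(1 + |ξ|) ^ k` -/
noncomputable def wk (k : ℕ) (ξ : E3) : ℝ≥0∞ := ENNReal.ofReal ((1 + ‖ξ‖) ^ k)

/-- rapidly decreasing: measurable, all `(1 + |ξ|) ^ k |w ξ|` are integrable and bounded -/
def Nice (w : E3 → C3) : Prop := Measurable w ∧
  ∀ k : ℕ, ∃ M : NNReal, (∫⁻ ξ, wk k ξ * ‖w ξ‖ₑ) ≤ M ∧ ∀ ξ, wk k ξ * ‖w ξ‖ₑ ≤ M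

/-- rapidly decreasing, locally uniformly in time -/
def TameV (a : ℝ → E3 → C3) : Prop := Measurable (Function.uncurry a) ∧
  Measurable (Function.uncurry fun t ξ => ‖a t ξ‖ₑ) ∧
  ∀ (k : ℕ) (T : ℝ), ∃ M : NNReal, ∀ t ∈ Icc 0 T,
    (∫⁻ ξ, wk k ξ * ‖a t ξ‖ₑ) ≤ M ∧ ∀ ξ, wk k ξ * ‖a t ξ‖ₑ ≤ M

/-! ### Flows on the Fourier side -/

/-- Leray projection at the frequency `ξ` -/
noncomputable def lpr (ξ : E3) (v : C3) : C3 :=
  fun k => v k - (ξ k : ℂ) * dt ξ v / ((‖ξ‖ ^ 2 : ℝ) : ℂ)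

/-- the Fourier transform of `- P div (a ⊗ b)`, for the Fourier transforms `a`, `b` -/
noncomputable def nl (a b : E3 → C3) (ξ : E3) : C3 :=
  (-(2 * Real.pi * Complex.I) : ℂ) • lpr ξ (∫ η, dt ξ (a (ξ - η)) • b η)

/-- Fourier transform of a mild solution of the Navier-Stokes equations with the viscosity `ν` -/
def Mild (ν : ℝ) (u : ℝ → E3 → C3) : Prop := ∀ t, 0 ≤ t → ∀ ξ,
  u t ξ = Real.exp (-(4 * Real.pi ^ 2 * ν * ‖ξ‖ ^ 2 * t)) • u 0 ξ
    + ∫ s in Ioc 0 t, Real.exp (-(4 * Real.pi ^ 2 * ν * ‖ξ‖ ^ 2 * (t - s))) • nl (u s) (u s) ξ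

/-- Fourier transform of a global smooth axisymmetric solution, with `∫ |U t| ≤ H t`, `H` bounded and
square integrable in time -/
def Flow (ν : ℝ) (U : ℝ → E3 → C3) : Prop :=
  TameV U ∧ Mild ν U ∧ (∀ t, 0 ≤ t → Sym (U t)) ∧ ∃ (H : ℝ → ℝ) (B : ℝ), Continuous H ∧
    (∀ t, 0 ≤ H t ∧ H t ≤ B) ∧ (∀ T, 0 ≤ T → (∫ s in (0 : ℝ)..T, H s ^ 2) ≤ B) ∧
    ∀ t, 0 ≤ t → (∫⁻ ξ, ‖U t ξ‖ₑ) ≤ ENNReal.ofReal (H t)

/-- the critical Lei-Lin norm `∫ |a(ξ)| / |ξ| dξ` -/
noncomputable def leiLin (a : E3 → C3) : ℝ≥0∞ := ∫⁻ ξ, ENNReal.ofReal ‖ξ‖⁻¹ * ‖a ξ‖ₑ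

/-! ### Comparison with the definitions of the library of the proof -/

private theorem sol_of {ν : ℝ} {u : ℝ → E3 → E3} {p : ℝ → E3 → ℝ}
    (h : Pool.Agent.Run7.h148.AX.IsSol ν u p) : IsSol ν u p :=
  ⟨h.smooth, h.axi, h.div, h.eqn, h.bdd, h.sqi⟩

private theorem flow_of {ν : ℝ} {U : ℝ → E3 → C3} (h : Flow ν U) :
    Pool.Agent.Run7.h148.AX.Flow (4 * Real.pi ^ 2 * ν) U :=
  ⟨h.1, h.2.1, h.2.2.1, h.2.2.2⟩

/-- (1) is the theorem. (2): `V = 0` is allowed. (3): the Fourier transforms of the axisymmetric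
divergence free fields in `C_c^∞` are among the data `w`. -/
theorem result (ν : ℝ) (hν : 0 < ν) :
    (∀ (u0 : E3 → E3) (V : ℝ → E3 → C3) (m : ℕ) (φ : Fin m → E3 → E3) (ε : ℝ),
      LocallyIntegrable u0 → Axi u0 → WDf u0 → Flow ν V → (∀ i, TestField (φ i)) → 0 < ε →
      ∃ (v0 : E3 → C3) (δ : ℝ), 0 < δ ∧ Nice v0 ∧ Sym v0 ∧
        (∀ i, |(∫ x, ∑ j, phy v0 x j * φ i x j) - ∫ x, ∑ j, u0 x j * φ i x j| ≤ ε) ∧
        ∀ w : E3 → C3, Nice w → Sym w → leiLin (fun ξ => w ξ - v0 ξ) ≤ ENNReal.ofReal δ →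
          ∃ (U : ℝ → E3 → C3) (p : ℝ → E3 → ℝ), IsSol ν (fun t => phy (U t)) p ∧ U 0 = w ∧
            TameV U ∧ (∀ t, 0 ≤ t → Sym (U t)) ∧
            ∀ t, ε ≤ t → leiLin (fun ξ => U t ξ - V t ξ) ≤ ENNReal.ofReal ε) ∧
    Flow ν (fun _ _ => 0) ∧
    ∀ f : E3 → E3, TestField f → Axi f → (∀ x, ∑ j, pd j (fun y => f y j) x = 0) →
      Nice (fth f) ∧ Sym (fth f) ∧ phy (fth f) = f := by
  refine ⟨fun u0 V m φ ε hu hax hdf hV hφ hε => ?_, ?_, fun f hf ha hd => ?_⟩
  · obtain ⟨v0, δ, h1, h2, h3, h4, h5⟩ := Pool.Agent.Run7.h148.AX.All.FIC ν u0 V m φ ε hν hu hax hdf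
      (flow_of hV) hφ hε
    refine ⟨v0, δ, h1, h2, h3, h4, fun w hw hws hwd => ?_⟩
    obtain ⟨U, p, g1, g2, g3, g4, g5⟩ := h5 w hw hws hwd
    exact ⟨U, p, sol_of g1, g2, g3, g4, g5⟩
  · refine ⟨⟨measurable_const, ?_, fun k T => ⟨0, fun t _ => ?_⟩⟩, fun t _ ξ => ?_, fun t _ => ?_,
      fun _ => 0, 0, continuous_const, fun t => ⟨le_rfl, le_rfl⟩, fun T _ => ?_, fun t _ => ?_⟩
    · have : (Function.uncurry fun (_ : ℝ) (_ : E3) => ‖(0 : C3)‖ₑ) = fun _ => 0 := by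
        funext p
        simp [Function.uncurry]
      rw [this]
      exact measurable_const
    · simp
    · have h0 : nl (fun _ => (0 : C3)) (fun _ => 0) ξ = 0 := by
        have : (∫ η : E3, dt ξ ((fun _ => (0 : C3)) (ξ - η)) • (fun _ => (0 : C3)) η) = 0 := by
          simp
        unfold nl
        rw [this]
        funext k
        simp [lpr, dt]
      simp [h0]
    · refine ⟨fun ξ k => by simp, fun θ ξ => ?_, fun ξ => by simp [dt]⟩
      funext k
      fin_cases k <;> simp [rc]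
    · simp
    · simp
  · obtain ⟨h1, h2, h3, h4, h5, -, h7⟩ := Pool.Agent.Run7.h148.AX.All.FTF.1 f hf.1 hf.2
    exact ⟨⟨h1, h2⟩, ⟨h3, h4 ha, h5 hd⟩, h7⟩

end Pool.Agent.Results.MP_09540e_an.AxisymmetricDensity
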