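import Mathlib
import Pool.Agent.Run7.h980.AX.Brg

/-!
# Blow-up from every axisymmetric datum under doubly exponentially sparse, universal constraints

The Navier-Stokes equations on `ℝ³` for axisymmetric velocity fields (swirl allowed) are projected
orthogonally on a space `W` of square integrable divergence-free fields: the velocity is in `W`
and the equations are tested with all fields of `W`. The space `W` may be very large: all square
integrable divergence-free fields, or all axisymmetric ones, which are orthogonal to axisymmetric
test fields `g n i`, `n ≥ 0`, `i < 3`.

The test fields `g n i` with `n ≥ 3` are universal: they are the fields `G (n + k) i (x - z)`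
with a sequence `G m i` which depends only on the number `q > 1`, is supported in the ball
`|x| ≤ 2^(-q^m)`, and is used from a large index on. So only nine scalar constraints depend on the
datum; all others are supported in an arbitrarily small ball about the point `z` of the axis, and
only `O(log log (1/s))` of them are not supported in the ball `|x - z| < s`.

The theorem: for EVERY smooth compactly supported divergence-free axisymmetric `U` which is not a
steady Euler flow, and for EVERY point `z` of the axis off the support of `U`, there are such
constraints for which the solution with the datum `a U` is axisymmetric and blows up at `z` as soon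
as `a ≥ A₀ ν`; and for EVERY axisymmetric `U`, EVERY point `z` of the axis and every viscosity
there is an axisymmetric perturbation of `U`, arbitrarily small in `L^r`, `r < 3`, and supported in
an arbitrarily small ball about `z`, from which the solution blows up at `z` arbitrarily early.
The supremum of the circulation `Γ = r u_θ` tends to infinity at the blow-up time, while `|Γ|` is
bounded by `C r^(-4(q-1))`.
All Leray-Hopf solutions of the projected equations coincide with the smooth one up to the
blow-up.

The definitions are in Run7/h407/LL/Defs and Run7/h980/AX/Defs.
-/

namespace Pool.Agent.Results.MP_09540e_an.AxisymmetricEveryDatum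

open Set Filter Topology MeasureTheory Run7.h407.LL Run7.h980.AX
open scoped ContDiff

/-- Let `1 < q < 5/4`. There are universal axisymmetric modes `P m` and constraint fields `G m i`,
which depend only on `q`, with the following properties. Let `U` be a smooth compactly supported
divergence-free axisymmetric field on `ℝ³`, and let `z` be a point of the third axis.

(A) Suppose that `U` is not a steady Euler flow and that `z` is not in the support of `U`. Then for
all large `k` there are axisymmetric modes and constraint fields with `p 0 = U`, universal for
`n ≥ 3`, and `A₀ > 0`, such that for every viscosity `ν ≥ 0` and every amplitude `a > 0` with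
`A₀ ν ≤ a` the solution with the datum `a U` blows up at `z` before the time `A₀ / a`.

(B) Let `0 < r < 3`, `q ≤ 1 + (3 - r) / 8`, `ε > 0` and `N` a bound for the viscosity. Then for all
large `k` there are a smooth divergence-free axisymmetric field `F` supported in the ball
`|x - z| ≤ ε` with `∫ |F|^r ≤ ε`, and axisymmetric modes and constraint fields with
`p 0 = U + F`, universal for `n ≥ 3`, such that for every viscosity `0 ≤ ν ≤ N` the solution with
the datum `U + F` blows up at `z` before the time `ε`.

(C) For every space `W` between the modes and the constraints and every `ν`, each solution of the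
Navier-Stokes equations projected on `W` is a Leray-Hopf solution, divergence-free, and satisfies
the energy equality. -/
theorem result (q : ℝ) (hq : 1 < q) (hq' : q < 5 / 4) :
    ∃ (P : ℕ → E3 → E3) (G : ℕ → Fin 3 → E3 → E3), IsUniversal q P G ∧ AllAxisymmetric P G ∧
    (∀ (U : E3 → E3) (z : E3), IsTestField U → IsAxisymmetric U → OnAxis z →
      (¬ IsSteady U → VanishesNear z U → ∃ k₀ : ℕ, ∀ k ≥ k₀,
        ∃ (p : ℕ → E3 → E3) (g : ℕ → Fin 3 → E3 → E3), IsAxiFamily P G k z U p g ∧
        ∃ A₀ > 0, ∀ ν ≥ 0, ∀ a > 0, A₀ * ν ≤ a → BlowsUpAxi q z p g ν (scale a U) (A₀ / a)) ∧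
      (∀ r ε N : ℝ, 0 < r → r < 3 → q ≤ 1 + (3 - r) / 8 → 0 < ε → ∃ k₀ : ℕ, ∀ k ≥ k₀,
        ∃ F : E3 → E3, IsTestField F ∧ IsAxisymmetric F ∧ InBall z ε F ∧
        total (fun x => mag (F x) ^ r) ≤ ε ∧
        ∃ (p : ℕ → E3 → E3) (g : ℕ → Fin 3 → E3 → E3), IsAxiFamily P G k z (plus U F) p g ∧
          ∀ ν, 0 ≤ ν → ν ≤ N → BlowsUpAxi q z p g ν (plus U F) ε)) ∧
    (∀ (p : ℕ → E3 → E3) (g : ℕ → Fin 3 → E3 → E3) (W : Set (E3 → E3)),
      IsSpace p g W → ∀ (ν T : ℝ) (w : ℝ → E3 → E3), IsProjected W ν T w →
        IsLerayHopf W ν T w ∧ ∀ t ∈ Ico 0 T, (∀ x, divergence (w t) x = 0) ∧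
          innerL2 (w t) (w t) + 2 * ν * ∫ s in (0 : ℝ)..t, dirichlet (w s) (w s)
            = innerL2 (w 0) (w 0)) :=
  main_axi q hq hq'

end Pool.Agent.Results.MP_09540e_an.AxisymmetricEveryDatum
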